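import Pool.Agent.H872Z.Tri235

set_option autoImplicit false

namespace Pool.Agent.Results.MP_73c65d_al.AFinitelyMany

/-- `n ≥ 3` is admissible for `p, q, r, u`. -/
def Admissible (p q r : ℕ) (u : FreeGroup (Fin 3)) (n : ℕ) : Prop :=
  3 ≤ n ∧ ∃ ξ η ζ : alternatingGroup (Fin n),
    Subgroup.closure ({ξ, η, ζ} : Set (alternatingGroup (Fin n))) = ⊤ ∧
    ξ ^ p = 1 ∧ η ^ q = 1 ∧ ζ ^ r = 1 ∧ ξ * η * ζ * FreeGroup.lift ![ξ, η, ζ] u = 1

theorem result : ¬ ∀ (p q r : ℕ), p.Prime → q.Prime → r.Prime → p ≠ q → p ≠ r → q ≠ r →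
    ∀ u ∈ commutator (FreeGroup (Fin 3)), {n | Admissible p q r u n}.Infinite := by
  intro h
  refine h 2 3 5 (by norm_num) (by norm_num) (by norm_num) (by norm_num) (by norm_num)
    (by norm_num) 1 (one_mem _) ((Set.finite_le_nat 5).subset ?_)
  rintro n ⟨hn, ξ, η, ζ, htop, h1, h2, h3, h4⟩
  simp only [map_one, mul_one] at h4
  have hz : ζ = (ξ * η)⁻¹ := (eq_inv_of_mul_eq_one_right h4)
  have h5 : (ξ * η) ^ 5 = 1 := by
    rw [hz, inv_pow, inv_eq_one] at h3; exact h3
  have htop' : Subgroup.closure ({ξ, η} : Set (alternatingGroup (Fin n))) = ⊤ := by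
    rw [eq_top_iff, ← htop, Subgroup.closure_le]
    have a1 : ξ ∈ Subgroup.closure ({ξ, η} : Set (alternatingGroup (Fin n))) :=
      Subgroup.subset_closure (by simp)
    have a2 : η ∈ Subgroup.closure ({ξ, η} : Set (alternatingGroup (Fin n))) :=
      Subgroup.subset_closure (by simp)
    rintro a (rfl | rfl | rfl)
    · exact a1
    · exact a2
    · rw [hz]; exact inv_mem (mul_mem a1 a2)
  have hc := H872Z.Tri235.card_le ξ η h1 h2 h5 htop'
  haveI : Nontrivial (Fin n) := Fin.nontrivial_iff_two_le.2 (by omega)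
  have h6 := two_mul_nat_card_alternatingGroup (α := Fin n)
  rw [Nat.card_perm, Nat.card_fin] at h6
  by_contra hlt
  have h7 : Nat.factorial 6 ≤ Nat.factorial n := Nat.factorial_le (by simp at hlt; omega)
  have : Nat.factorial 6 = 720 := by decide
  omega

end Pool.Agent.Results.MP_73c65d_al.AFinitelyMany
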